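import Pool.Agent.MT100A.Stmts
import Pool.Agent.Helper29_MTG.Elg
import Pool.Agent.Helper47_MT100G.Fps
import Pool.Agent.Helper78_MT.Poly

/-!
# MT100-A, module ELA: elimination of the unknown rational structure, windows and density
(port of `Helper29_MTG/Elg.lean` to arbitrary systems, with separated translates)
-/

set_option autoImplicit false

namespace Pool.Agent.MT100A.H69

open Matrix Filter Topology Pool.Agent.MT100 Pool.Agent.MT100G Pool.Agent.Helper26_MT100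
open Pool.Agent.MT100G.H29 Pool.Agent.Helper78_MT

variable {d : Type} [Fintype d] [DecidableEq d]

/-! ### Values -/

lemma yh_valueA (hvag : VagStmt) (hbas : BasStmt) (F : Sys d) (κ : ℕ) : ∃ n3 : ℕ, ∀ n ≥ n3,
    YH F.H F.N ((n - κ : ℕ) : ℂ) = F.tv κ n * eN F.N ((-(Real.log n) : ℝ) : ℂ) := by
  obtain ⟨R, hR0, -, hreal⟩ := hbas d F.H F.K F.N F.q F.B F.sys
  have hv := hvag d F.H F.N F.sys.nil F.sys.gH Polynomial.X (by simp) (by simp) κ
  have hv' := (tendsto_natCast_atTop_atTop (R := ℝ)).eventually hv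
  have hR' : ∀ᶠ n : ℕ in atTop, R + κ < (n : ℝ) :=
    tendsto_natCast_atTop_atTop.eventually_gt_atTop (R + κ)
  obtain ⟨n3, hn3⟩ := eventually_atTop.mp (hv'.and hR')
  refine ⟨max n3 κ, fun n hn => ?_⟩
  obtain ⟨h1, h2⟩ := hn3 n (le_trans (le_max_left _ _) hn)
  have hκ : κ ≤ n := le_trans (le_max_right _ _) hn
  have hcast : ((n - κ : ℕ) : ℂ) = (((n : ℝ) - κ : ℝ) : ℂ) := by
    rw [Nat.cast_sub hκ]
    push_cast
    rfl
  have hpv : ∀ y : ℝ, pv Polynomial.X y = y := by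
    intro y
    unfold pv
    rw [Polynomial.map_X, Polynomial.eval_X]
  rw [hpv, Polynomial.natDegree_X, Polynomial.leadingCoeff_X] at h1
  rw [hcast, hreal _ (by linarith), h1, Matrix.map_mul]
  have h3 : ((TrG F.H F.N Polynomial.X κ).map (fun f => ev f ((n : ℝ))⁻¹)).map
      (algebraMap ℝ ℂ) = F.tv κ n := by
    ext i j
    rfl
  have h4 : (eN F.N (-((((1 : ℕ) : ℝ)) * Real.log n + Real.log ((1 : ℚ) : ℝ)))).map
      (algebraMap ℝ ℂ) = eN F.N ((-(Real.log n) : ℝ) : ℂ) := by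
    rw [MT100.H27.map_eN]
    congr 1
    simp
  rw [h3, h4]

/-- the relations of NMA for families of rows -/
lemma num_rowsA {F : Sys d} {D : ℕ} (hnum : ∀ (ι : Type) [Fintype ι] [DecidableEq ι] (κ : ι → ℕ),
      Sep D κ → ∀ k : ℕ,
      ∃ n0 : ℕ, ∀ n : ℕ, n0 ≤ n → ∀ c : (ι × Fin k → d) → (ι × Fin k → d) → ℚ,
        ∑ β, ∑ α, (c β α : ℂ) * ∏ s, F.tv (κ s.1) n (β s) (α s) = 0 →
        ∀ g : ι → Matrix d d ℂ, (∀ i, g i ∈ F.Zc) →
          ∑ β, ∑ α, (c β α : ℂ) * ∏ s, (F.tv (κ s.1) n * g s.1) (β s) (α s) = 0)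
    (k n' : ℕ) (κ : Fin n' → ℕ)
    (hκ : Sep D κ) : ∃ n0 : ℕ, ∀ n ≥ n0, ∀ (a : Fin n' → Fin k → d)
      (c : (Fin n' → Fin k → d) → ℚ),
      ∑ β, algebraMap ℚ ℂ (c β) * ∏ i, ∏ j, F.tv (κ i) n (a i j) (β i j) = 0 →
      ∀ g : Fin n' → Matrix d d ℂ, (∀ i, g i ∈ F.Zc) →
        ∑ β, algebraMap ℚ ℂ (c β) * ∏ i, ∏ j, (F.tv (κ i) n * g i) (a i j) (β i j) = 0 := by
  classical
  obtain ⟨n0, hn0⟩ := hnum (Fin n') κ hκ k
  refine ⟨n0, fun n hn a c hc g hg => ?_⟩
  set a' : Fin n' × Fin k → d := fun s => a s.1 s.2 with ha'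
  have key : ∀ G : Fin n' → Matrix d d ℂ,
      ∑ β, ∑ α : Fin n' × Fin k → d, (((if β = a' then c (fun i j => α (i, j)) else 0 : ℚ)) : ℂ) *
        ∏ s : Fin n' × Fin k, G s.1 (β s) (α s) =
      ∑ β, algebraMap ℚ ℂ (c β) * ∏ i, ∏ j, G i (a i j) (β i j) := by
    intro G
    rw [Finset.sum_eq_single a']
    · rw [← (Equiv.curry (Fin n') (Fin k) d).sum_comp]
      refine Finset.sum_congr rfl fun α _ => ?_
      rw [if_pos rfl, Fintype.prod_prod_type, eq_ratCast (algebraMap ℚ ℂ)]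
      rfl
    · intro β _ hβ
      refine Finset.sum_eq_zero fun α _ => ?_
      rw [if_neg hβ]
      simp
    · intro h
      exact absurd (Finset.mem_univ _) h
  have h1 := hn0 n hn (fun β α => if β = a' then c (fun i j => α (i, j)) else 0) (by
    rw [key (fun i => F.tv (κ i) n)]
    exact hc) g hg
  rw [key (fun i => F.tv (κ i) n * g i)] at h1
  exact h1

lemma sep_mono {ι : Type} {D D' : ℕ} (h : D ≤ D') {κ : ι → ℕ} (hκ : Sep D' κ) : Sep D κ := by
  refine ⟨fun i => h.trans (hκ.1 i), fun i j hij => ?_⟩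
  rcases hκ.2 i j hij with h1 | h1
  · exact Or.inl (h.trans h1)
  · exact Or.inr (h.trans h1)

/-- two different numbers in the same class modulo `D` are at distance at least `D` -/
lemma dist_of_mod {D a b : ℕ} (hab : a ≠ b) (h : a % D = b % D) : D ≤ a - b ∨ D ≤ b - a := by
  rcases lt_or_gt_of_ne hab with h1 | h1
  · right
    have h2 : D ∣ b - a := (Nat.modEq_iff_dvd' h1.le).1 h
    exact Nat.le_of_dvd (by omega) h2
  · left
    have h2 : D ∣ a - b := (Nat.modEq_iff_dvd' h1.le).1 h.symm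
    exact Nat.le_of_dvd (by omega) h2

/-- ELA. -/
theorem ela (hnma : NmaStmt) (hvag : VagStmt) (hbas : BasStmt) (hexa : ExaStmt)
    (hmoa : MoaStmt) : ElaStmt := by
  classical
  intro d _ _ F k A
  obtain ⟨D1, hD1⟩ := hnma d F
  obtain ⟨D0, hD0⟩ : ∃ D0, D0 = D1 + 1 := ⟨_, rfl⟩
  have hD0pos : 0 < D0 := by omega
  obtain ⟨D, hD⟩ : ∃ D, D = (Fintype.card d ^ k) ^ 2 := ⟨_, rfl⟩
  have hcard : Fintype.card (Fin k → d) ^ 2 = D := by
    rw [hD, Fintype.card_fun, Fintype.card_fin]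
  have hmulZ : ∀ a ∈ F.Zc, ∀ b ∈ F.Zc, a * b ∈ F.Zc := fun a ha b hb =>
    zcl_mul (hmoa d F Set.univ).2.2.1 ha hb
  have honeZ : (1 : Matrix d d ℂ) ∈ F.Zc := by
    have h1 := hexa d F 0
    rwa [MT100.H27.eN_zero F.sys.nil] at h1
  have hN : ∀ K n' : ℕ, ∀ κ : Fin n' → Fin (K + D0), ∃ n0 : ℕ,
      Sep D0 (fun i => (κ i : ℕ)) → ∀ n ≥ n0,
      ∀ (a : Fin n' → Fin k → d) (c : (Fin n' → Fin k → d) → ℚ),
      ∑ β, algebraMap ℚ ℂ (c β) * ∏ i, ∏ j, F.tv (κ i) n (a i j) (β i j) = 0 →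
      ∀ g : Fin n' → Matrix d d ℂ, (∀ i, g i ∈ F.Zc) →
        ∑ β, algebraMap ℚ ℂ (c β) * ∏ i, ∏ j, (F.tv (κ i) n * g i) (a i j) (β i j) = 0 := by
    intro K n' κ
    by_cases hκ : Sep D0 (fun i => (κ i : ℕ))
    · obtain ⟨n0, hn0⟩ := num_rowsA hD1 k n' (fun i => (κ i : ℕ)) (sep_mono (by omega) hκ)
      exact ⟨n0, fun _ => hn0⟩
    · exact ⟨0, fun h => absurd h hκ⟩
  choose n0 hn0 using hN
  choose n3 hn3 using yh_valueA hvag hbas F
  set n1 : ℕ → ℕ := fun K => max K (max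
    ((Finset.range (D + 2)).sup fun n' => Finset.univ.sup (n0 K n'))
    ((Finset.range (K + D0)).sup n3)) with hn1
  refine ⟨D0 * D, n1, fun P _ S hS => ?_⟩
  have hw : ∀ K : ℕ, ∀ n ≥ n1 K, (S ∩ Set.Ioc (n - K) n).ncard ≤ D0 * D := by
    intro K n hn
    have hKn : K ≤ n := le_trans (le_max_left _ _) hn
    have hna : ((Finset.range (D + 2)).sup fun n' => Finset.univ.sup (n0 K n')) ≤ n + D0 :=
      le_trans (le_trans (le_trans (le_max_left _ _) (le_max_right _ _)) hn) (Nat.le_add_right _ _)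
    have hnb : (Finset.range (K + D0)).sup n3 ≤ n + D0 :=
      le_trans (le_trans (le_trans (le_max_right _ _) (le_max_right _ _)) hn)
        (Nat.le_add_right _ _)
    by_contra hcon
    push Not at hcon
    have hfin : (S ∩ Set.Ioc (n - K) n).Finite :=
      (Set.finite_Ioc _ _).subset Set.inter_subset_right
    -- a class modulo `D0` with more than `D` elements
    obtain ⟨r, -, hr⟩ := Finset.exists_lt_card_fiber_of_mul_lt_card_of_maps_to
      (s := hfin.toFinset) (t := Finset.range D0) (f := fun m => m % D0) (n := D)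
      (fun m _ => Finset.mem_range.2 (Nat.mod_lt _ hD0pos)) (by
        rw [Finset.card_range, ← Set.ncard_eq_toFinset_card _ hfin]
        exact hcon)
    obtain ⟨T, hTsub, hTcard⟩ := Finset.exists_subset_card_eq (Nat.succ_le_of_lt hr)
    have e : T ≃ Fin (D + 1) := T.equivFinOfCardEq hTcard
    have hmem' : ∀ i, ((e.symm i : T) : ℕ) ∈
        Finset.filter (fun m => m % D0 = r) hfin.toFinset := fun i => hTsub (e.symm i).2
    have hmem : ∀ i, ((e.symm i : T) : ℕ) ∈ S ∩ Set.Ioc (n - K) n := fun i =>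
      hfin.mem_toFinset.1 (Finset.mem_filter.1 (hmem' i)).1
    have hmod : ∀ i, ((e.symm i : T) : ℕ) % D0 = r := fun i => (Finset.mem_filter.1 (hmem' i)).2
    set κ : Fin (D + 1) → Fin (K + D0) := fun i =>
      ⟨n + D0 - ((e.symm i : T) : ℕ), by
        have h1 := (hmem i).2.1
        have h2 := (hmem i).2.2
        omega⟩ with hκdef
    have hκval : ∀ i, (κ i : ℕ) = n + D0 - ((e.symm i : T) : ℕ) := fun i => rfl
    have hsep : Sep D0 (fun i => (κ i : ℕ)) := by
      refine ⟨fun i => ?_, fun i j hij => ?_⟩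
      · have h2 := (hmem i).2.2
        show D0 ≤ (κ i : ℕ)
        rw [hκval]
        omega
      · have h1 : ((e.symm i : T) : ℕ) ≠ ((e.symm j : T) : ℕ) := fun h =>
          hij (e.symm.injective (Subtype.ext h))
        have h2 := (hmem i).2.2
        have h3 := (hmem j).2.2
        show D0 ≤ (κ i : ℕ) - (κ j : ℕ) ∨ D0 ≤ (κ j : ℕ) - (κ i : ℕ)
        rw [hκval, hκval]
        rcases dist_of_mod h1 ((hmod i).trans (hmod j).symm) with h4 | h4
        · right; omega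
        · left; omega
    have hκS : ∀ i, n + D0 - (κ i : ℕ) ∈ S := by
      intro i
      have h2 := (hmem i).2.2
      have h3 : n + D0 - (κ i : ℕ) = ((e.symm i : T) : ℕ) := by
        rw [hκval]
        omega
      rw [h3]
      exact (hmem i).1
    choose t ht ht2 using fun i => hS (n + D0 - (κ i : ℕ)) (hκS i)
    set E : Matrix d d ℂ := eN F.N ((-(Real.log ((n + D0 : ℕ) : ℝ)) : ℝ) : ℂ) with hE
    set E' : Matrix d d ℂ := eN F.N (-((-(Real.log ((n + D0 : ℕ) : ℝ)) : ℝ) : ℂ)) with hE'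
    have hEE : E * E' = 1 := MT100.H27.eN_mul_neg F.sys.nil _
    have hEE' : E' * E = 1 := by
      rw [hE, hE', MT100.H27.eN_mul F.sys.nil, neg_add_cancel, MT100.H27.eN_zero F.sys.nil]
    have hYH : ∀ i, YH F.H F.N ((n + D0 - (κ i : ℕ) : ℕ) : ℂ) =
        F.tv (κ i) ((n + D0 : ℕ) : ℝ) * E := by
      intro i
      apply hn3 (κ i) (n + D0)
      exact le_trans (Finset.le_sup (f := n3) (Finset.mem_range.2 (κ i).2)) hnb
    obtain ⟨i, hi⟩ := greedy_group (k := ℚ) (K := ℂ) (ι := Fin k → d) (α := Fin k → d)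
      (G := Matrix d d ℂ) (J := D + 1) (by rw [hcard]; exact Nat.lt_succ_self D) t A
      (fun i a γ => ∏ j, F.tv (κ i) ((n + D0 : ℕ) : ℝ) (a j) (γ j)) F.Zc 1 honeZ
      (fun i g a γ => ∏ j, (F.tv (κ i) ((n + D0 : ℕ) : ℝ) * g) (a j) (γ j))
      (fun i a => by
        funext γ
        rw [Matrix.mul_one])
      (fun β γ => ∏ j, (E * Pᵀ) (γ j) (β j))
      (by
        intro n' hn' a c hc g hg
        have h1 : n0 K n' (fun i => κ (Fin.castLE hn' i)) ≤ n + D0 := by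
          refine le_trans ?_ hna
          refine le_trans (Finset.le_sup (f := n0 K n') (Finset.mem_univ _)) ?_
          exact Finset.le_sup (f := fun n' => Finset.univ.sup (n0 K n'))
            (Finset.mem_range.2 (by omega))
        have hsep' : Sep D0 (fun i => ((κ (Fin.castLE hn' i) : Fin (K + D0)) : ℕ)) :=
          ⟨fun i => hsep.1 _, fun i j hij => hsep.2 _ _ fun h =>
            hij (Fin.castLE_injective hn' h)⟩
        exact hn0 K n' (fun i => κ (Fin.castLE hn' i)) hsep' (n + D0) h1 a c hc g hg)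
      (by
        intro i a ha
        have h1 := ht i a ha
        unfold Sys.per at h1
        rw [hYH i] at h1
        rw [sum_prod (t i) P (F.tv (κ i) ((n + D0 : ℕ) : ℝ)) E a] at h1
        exact h1)
    obtain ⟨g, hg, a, ha, hne⟩ := ht2 i
    apply hne
    have h1 := hi (E * g * E') (hmulZ _ (hmulZ _ (hexa d F _) _ hg) _ (hexa d F _)) a ha
    rw [← sum_prod (t i) P (F.tv (κ i) ((n + D0 : ℕ) : ℝ) * (E * g * E')) E a] at h1
    have h2 : F.tv (κ i) ((n + D0 : ℕ) : ℝ) * (E * g * E') * E =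
        YH F.H F.N ((n + D0 - (κ i : ℕ) : ℕ) : ℂ) * g := by
      rw [hYH i]
      calc F.tv (κ i) ((n + D0 : ℕ) : ℝ) * (E * g * E') * E =
            F.tv (κ i) ((n + D0 : ℕ) : ℝ) * E * g * (E' * E) := by
            simp only [Matrix.mul_assoc]
        _ = F.tv (κ i) ((n + D0 : ℕ) : ℝ) * E * g := by rw [hEE', Matrix.mul_one]
    rw [h2] at h1
    exact h1
  refine ⟨?_, ?_⟩
  · intro K n hn
    refine le_trans (le_of_eq ?_) (hw K n hn)
    have hK : K ≤ n := le_trans (le_max_left _ _) hn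
    have h3 : (S ∩ Set.Ioc (n - K) n) = {l : ℕ | l ∈ S ∧ n < l + K ∧ l ≤ n} := by
      ext l
      simp only [Set.mem_inter_iff, Set.mem_ofPred_eq, Set.mem_Ioc]
      constructor
      · rintro ⟨h4, h5, h6⟩
        exact ⟨h4, by omega, h6⟩
      · rintro ⟨h4, h5, h6⟩
        exact ⟨h4, by omega, h6⟩
    rw [h3]
    rfl
  · apply densZero_of
    exact density_of_windows _ _ fun K => ⟨n1 K, fun n hn => hw K n hn⟩

end Pool.Agent.MT100A.H69
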